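import Pool.Agent.Helper70.KN.Goals3

/-!
# Slices in the direction of the sum of the other coordinates (packet SHE of project KN)
-/

set_option autoImplicit false

open MeasureTheory Set

namespace Pool.Agent.Helper83.KN.SHE

open Pool.Agent.Helper70.KN

variable {N : ℕ}

/-- the shear -/
def Sh (i j : Fin N) (x : Fin N → ℝ) : Fin N → ℝ :=
  fun k => if k ∈ ({i} : Finset (Fin N)) ∨ k = j then x k else x k + x j

/-- the set on the right -/
def RR (V : Finset (Fin N → ℕ)) (i j : Fin N) (s : ℝ) : Set (Fin N → ℝ) :=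
  {x | x ∈ cyl V ∅ ∧ x j < s ∧ ∀ k, k ≠ i → k ≠ j → x j < x k}

theorem meas_RR {V : Finset (Fin N → ℕ)} (hm : MeasurableSet (cyl V ∅)) (i j : Fin N) (s : ℝ) :
    MeasurableSet (RR V i j s) := by
  have h1 : MeasurableSet {x : Fin N → ℝ | ∀ k, k ≠ i → k ≠ j → x j < x k} := by
    rw [ofPred_forall]
    refine MeasurableSet.iInter fun k => ?_
    by_cases h : k ≠ i ∧ k ≠ j
    · have : {x : Fin N → ℝ | k ≠ i → k ≠ j → x j < x k} = {x | x j < x k} := by
        ext x
        simp [h.1, h.2]
      rw [this]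
      exact measurableSet_lt (measurable_pi_apply j) (measurable_pi_apply k)
    · have : {x : Fin N → ℝ | k ≠ i → k ≠ j → x j < x k} = univ := by
        ext x
        simp only [mem_ofPred_eq, mem_univ, iff_true]
        intro h1 h2
        exact absurd ⟨h1, h2⟩ h
      rw [this]
      exact MeasurableSet.univ
  exact hm.inter ((measurableSet_lt (measurable_pi_apply j) measurable_const).inter h1)

theorem meas_Sh (i j : Fin N) : Measurable (Sh i j) := by
  rw [measurable_pi_iff]
  intro k
  unfold Sh
  by_cases hk : k ∈ ({i} : Finset (Fin N)) ∨ k = j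
  · simp only [hk, if_true]
    exact measurable_pi_apply k
  · simp only [hk, if_false]
    exact (measurable_pi_apply k).add (measurable_pi_apply j)

/-- The inclusion of the proof. -/
lemma incl (hTC : S_TC) {V : Finset (Fin N → ℕ)} {ω θ : ℝ} (hF : Flat V ω θ)
    (i j : Fin N) (hij : j ≠ i) (s t : ℝ) (ht0 : 0 < t) (hts : t < s) (htc : t * θ < 1)
    (D : Fin N → ℝ) (hD : ∀ k, D k = if k = j then 1 else 1 - θ * t)
    (x : Fin N → ℝ) (hx : x ∈ cyl V {j}) (hx' : ∀ k, k ≠ i → k ≠ j → 0 < x k) :
    0 ≤ D j * x j ∧ D j * x j < 1 ∧ Sh i j (Function.update (fun k => D k * x k) j t) ∈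
      RR V i j s := by
  have hl : 0 < 1 - θ * t := by
    rw [mul_comm] at htc
    linarith
  obtain ⟨h0, h1, h2⟩ := hx
  have hDj : D j = 1 := by rw [hD, if_pos rfl]
  set y : Fin N → ℝ := Function.update (fun k => D k * x k) j t with hy
  have hyj : y j = t := by rw [hy, Function.update_self]
  have hyk : ∀ k, k ≠ j → y k = (1 - θ * t) * x k := by
    intro k hk
    rw [hy, Function.update_of_ne hk]
    change D k * x k = _
    rw [hD, if_neg hk]
  have hsj : Sh i j y j = t := by
    unfold Sh
    rw [if_pos (Or.inr rfl), hyj]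
  have hsi : Sh i j y i = (1 - θ * t) * x i := by
    unfold Sh
    rw [if_pos (Or.inl (Finset.mem_singleton_self i)), hyk i hij.symm]
  have hsk : ∀ k, k ≠ i → k ≠ j → Sh i j y k = (1 - θ * t) * x k + t := by
    intro k hk hk'
    unfold Sh
    rw [if_neg (by simp [hk, hk']), hyk k hk', hyj]
  have hnn : ∀ k, 0 ≤ Sh i j y k := by
    intro k
    by_cases hk : k = i
    · subst hk
      rw [hsi]
      exact mul_nonneg hl.le (h0 _)
    · by_cases hk' : k = j
      · subst hk'
        rw [hsj]
        exact ht0.le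
      · rw [hsk k hk hk']
        have := mul_nonneg hl.le (h0 k)
        have h3 : (0 : Fin N → ℝ) k = 0 := rfl
        linarith
  refine ⟨?_, ?_, ⟨fun k => hnn k, ?_, ?_⟩, ?_, ?_⟩
  · rw [hDj, one_mul]
    exact h0 j
  · rw [hDj, one_mul]
    exact h1 j (Finset.mem_singleton_self j)
  · intro k hk
    exact absurd hk (Finset.notMem_empty k)
  · intro hw
    apply h2
    have hz : zr ∅ (Sh i j y) = Sh i j y := by
      funext k
      simp [zr]
    rw [hz] at hw
    have h3 := hTC N V ω θ hF i (Sh i j y) t hw ht0.le htc (by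
      intro k hk
      by_cases hk' : k = j
      · subst hk'
        rw [hsj]
      · rw [hsk k hk hk']
        have := mul_nonneg hl.le (h0 k)
        linarith)
    convert h3 using 1
    funext k
    by_cases hk : k = i
    · subst hk
      rw [if_pos rfl, hsi]
      have : zr {j} x k = x k := by
        unfold zr
        rw [if_neg (by simpa using hij.symm)]
      rw [this]
      field_simp
    · rw [if_neg hk]
      by_cases hk' : k = j
      · subst hk'
        rw [hsj]
        simp [zr]
      · rw [hsk k hk hk']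
        have : zr {j} x k = x k := by
          unfold zr
          rw [if_neg (by simpa using hk')]
        rw [this, add_sub_cancel_right]
        field_simp
  · change Sh i j y j < s
    rw [hsj]
    exact hts
  · intro k hk hk'
    change Sh i j y j < Sh i j y k
    rw [hsj, hsk k hk hk']
    have := mul_pos hl (hx' k hk hk')
    linarith

/-- the integral -/
theorem int_eq (hN : 0 < N) (θ s : ℝ) (hθ : 0 < θ) :
    ∫ t in (0 : ℝ)..s, (1 - θ * t) ^ (N - 1) = kap N θ s / N := by
  have hN' : (N : ℝ) ≠ 0 := by exact_mod_cast hN.ne'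
  have hd : ∀ t : ℝ, HasDerivAt (fun t : ℝ => -(1 - θ * t) ^ N / (N * θ)) ((1 - θ * t) ^ (N - 1)) t := by
    intro t
    have h1 : HasDerivAt (fun t : ℝ => 1 - θ * t) (-(θ * 1)) t :=
      ((hasDerivAt_id t).const_mul θ).const_sub 1
    have h2 : HasDerivAt (fun t : ℝ => -(1 - θ * t) ^ N / (N * θ)) _ t :=
      ((h1.pow N).neg).div_const (N * θ)
    refine h2.congr_deriv ?_
    rw [div_eq_iff (by positivity)]
    ring
  rw [intervalIntegral.integral_eq_sub_of_hasDerivAt (fun t _ => hd t)
    (Continuous.intervalIntegrable (by fun_prop) _ _)]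
  unfold kap
  rw [mul_zero, sub_zero, one_pow]
  field_simp
  ring

theorem t (hMF : S_MF) (hSI : S_SI) (hSC : S_SC) (hTC : S_TC) (hSH : S_SH) : S_SHE := by
  intro N V ω θ hF i j s hij hs0 hsc
  have hθ : 0 < θ := hF.2.2.2.1
  have hN : 0 < N := i.pos
  obtain ⟨hm, hfin, -⟩ := hMF N V hF.1 ∅
  obtain ⟨hm', hfin', -⟩ := hMF N V hF.1 {j}
  have hRm : MeasurableSet (RR V i j s) := meas_RR hm i j s
  have hRfin : volume (RR V i j s) ≠ ⊤ :=
    ne_top_of_le_ne_top hfin (measure_mono fun x hx => hx.1)
  set P : Set (Fin N → ℝ) := {x | Sh i j x ∈ RR V i j s} with hP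
  have hPm : MeasurableSet P := meas_Sh i j hRm
  have hPv : volume P = volume (RR V i j s) := hSH N (RR V i j s) {i} j hRm
  have slice : ∀ t : ℝ, 0 < t → t < s →
      ENNReal.ofReal ((1 - θ * t) ^ (N - 1)) * volume (cyl V {j}) ≤
        volume {x : Fin N → ℝ | 0 ≤ x j ∧ x j < 1 ∧ Function.update x j t ∈ P} := by
    intro t ht0 hts
    have htc : t * θ < 1 := by
      rw [mul_comm]
      exact lt_of_lt_of_le (mul_lt_mul_of_pos_left hts hθ) hsc
    have hl : 0 < 1 - θ * t := by
      rw [mul_comm] at htc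
      linarith
    let D : Fin N → ℝ := fun k => if k = j then 1 else 1 - θ * t
    have hDp : ∀ k, 0 < D k := by
      intro k
      simp only [D]
      split_ifs
      · exact one_pos
      · exact hl
    have hprod : ∏ k, D k = (1 - θ * t) ^ (N - 1) := by
      simp only [D]
      rw [Finset.prod_ite, Finset.prod_const_one, one_mul, Finset.prod_const]
      congr 1
      have : Finset.univ.filter (fun k => ¬ k = j) = ({j} : Finset (Fin N))ᶜ := by
        ext k
        simp
      rw [this, Finset.card_compl, Fintype.card_fin, Finset.card_singleton]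
    have hupd : Measurable fun x : Fin N → ℝ => Function.update x j t := by
      rw [measurable_pi_iff]
      intro k
      by_cases hk : k = j
      · subst hk
        simp only [Function.update_self]
        exact measurable_const
      · simp only [Function.update_of_ne hk]
        exact measurable_pi_apply k
    have hPtm : MeasurableSet {x : Fin N → ℝ | 0 ≤ x j ∧ x j < 1 ∧ Function.update x j t ∈ P} :=
      (measurableSet_le measurable_const (measurable_pi_apply j)).inter
        ((measurableSet_lt (measurable_pi_apply j) measurable_const).inter (hupd hPm))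
    rw [hSC N _ D hPtm hDp, hprod]
    refine mul_le_mul' le_rfl ?_
    have hnull : ∀ᵐ x : Fin N → ℝ, ∀ k, x k ≠ 0 := by
      rw [ae_all_iff]
      intro k
      rw [ae_iff]
      simp only [ne_eq, not_not]
      exact Measure.pi_hyperplane (fun _ : Fin N => (volume : Measure ℝ)) k 0
    refine measure_mono_ae ?_
    filter_upwards [hnull] with x hx hxc
    refine incl hTC hF i j hij s t ht0 hts htc D (fun k => rfl) x hxc fun k _ _ => ?_
    exact lt_of_le_of_ne (hxc.1 k) (hx k).symm
  have hcont : Continuous fun t : ℝ => (1 - θ * t) ^ (N - 1) := by fun_prop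
  have hint : IntegrableOn (fun t : ℝ => (1 - θ * t) ^ (N - 1)) (Ioo 0 s) :=
    (hcont.integrableOn_Icc (a := 0) (b := s)).mono_set Ioo_subset_Icc_self
  have hnn : ∀ t ∈ Ioo (0 : ℝ) s, 0 ≤ (1 - θ * t) ^ (N - 1) := by
    intro t ht
    apply pow_nonneg
    have := mul_le_mul_of_nonneg_left ht.2.le hθ.le
    linarith
  have hI : ∫ t in (0 : ℝ)..s, (1 - θ * t) ^ (N - 1) =
      ∫ t in Ioo (0 : ℝ) s, (1 - θ * t) ^ (N - 1) := by
    rw [intervalIntegral.integral_of_le hs0, integral_Ioc_eq_integral_Ioo]
  have hI0 : 0 ≤ ∫ t in Ioo (0 : ℝ) s, (1 - θ * t) ^ (N - 1) :=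
    setIntegral_nonneg measurableSet_Ioo hnn
  have hle : ENNReal.ofReal (∫ t in Ioo (0 : ℝ) s, (1 - θ * t) ^ (N - 1)) *
      volume (cyl V {j}) ≤ volume (RR V i j s) := by
    rw [ofReal_integral_eq_lintegral_ofReal hint
      ((ae_restrict_iff' measurableSet_Ioo).mpr (Filter.Eventually.of_forall hnn))]
    rw [← lintegral_mul_const _ (hcont.measurable.ennreal_ofReal)]
    rw [← hPv, hSI N P j hPm]
    calc ∫⁻ t in Ioo (0 : ℝ) s, ENNReal.ofReal ((1 - θ * t) ^ (N - 1)) * volume (cyl V {j})
        ≤ ∫⁻ t in Ioo (0 : ℝ) s,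
            volume {x : Fin N → ℝ | 0 ≤ x j ∧ x j < 1 ∧ Function.update x j t ∈ P} :=
          setLIntegral_mono' measurableSet_Ioo fun t ht => slice t ht.1 ht.2
      _ ≤ ∫⁻ t : ℝ, volume {x : Fin N → ℝ | 0 ≤ x j ∧ x j < 1 ∧ Function.update x j t ∈ P} :=
          setLIntegral_le_lintegral _ _
  rw [← hI, int_eq hN θ s hθ] at hle
  rw [← hI, int_eq hN θ s hθ] at hI0
  have h5 := ENNReal.toReal_mono hRfin hle
  rw [ENNReal.toReal_mul, ENNReal.toReal_ofReal hI0] at h5
  exact h5

end Pool.Agent.Helper83.KN.SHE
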