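import Pool.Agent.Helper47.KN.Goals

/-!
# Project KN (MP_08df5f_al): packet LR
-/

set_option autoImplicit false

namespace Pool.Agent.Helper83.KN

open Equiv Pool.Agent.Helper47.KN
open Pool.Agent.Helper62.GR hiding ev
open scoped commutatorElement

variable {n : ℕ} (v : ZMod (n + 2) → Bool)

theorem app_inv (g : Perm X) (x : X) : g (g⁻¹ x) = x := g.apply_symm_apply x

theorem inv_app (g : Perm X) (x : X) : g⁻¹ (g x) = x := g.symm_apply_apply x

theorem agr_KG {g : Perm X} (hg : g ∈ KG v) (m : ℕ) (x y : X) :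
    Agr m (g x) (g y) ↔ Agr m x y := by
  obtain ⟨w, rfl⟩ := exists_ev v hg
  exact agr_ev v m w x y

theorem trans_KG : ∀ (m : ℕ) (x y : X), ∃ g ∈ KG v, Agr m (g x) y := by
  intro m
  induction m with
  | zero => exact fun x y => ⟨1, (KG v).one_mem, Agr_zero _ _⟩
  | succ m ih =>
    have key : ∀ x y : X, x 0 = y 0 → ∃ g ∈ KG v, Agr (m + 1) (g x) y := by
      intro x y hxy
      obtain ⟨g, hg, h⟩ := ih (tl x) (tl y)
      obtain ⟨k, hk, hkx⟩ := selfrep v hg (x 0)
      refine ⟨k, hk, ?_⟩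
      have h1 : k x = cn (x 0) (g (tl x)) := by
        conv_lhs => rw [← cn_tl x]
        exact hkx (tl x)
      rw [h1, ← cn_tl y, Agr_cn, ← hxy]
      exact ⟨rfl, h⟩
    intro x y
    by_cases hxy : x 0 = y 0
    · exact key x y hxy
    · have h0 : ag v 0 x 0 = !x 0 := by
        conv_lhs => rw [← cn_tl x]
        rw [ag_cn]
        simp
      have h1 : ag v 0 x 0 = y 0 := by
        rw [h0]
        revert hxy
        cases x 0 <;> cases y 0 <;> simp
      obtain ⟨g, hg, h⟩ := key (ag v 0 x) y h1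
      exact ⟨g * ag v 0, (KG v).mul_mem hg (ag_mem v 0), h⟩


theorem ev_comm_ne : ev v ⁅(FreeGroup.of 0 : FreeGroup (ZMod (n + 2))), FreeGroup.of 1⁆ ≠ 1 := by
  intro h
  rw [map_commutatorElement, ev_of, ev_of, commutatorElement_eq_one_iff_mul_comm] at h
  have h1 : ag v 0 * ag v 1 * (ag v 0)⁻¹ = ag v 1 := by
    rw [h, mul_assoc, mul_inv_cancel, mul_one]
  have hf : ∀ z : X, ag v 1 (cn (!v 1) z) = cn (!v 1) z := by
    intro z
    rw [ag_cn, if_neg (by cases v 1 <;> simp)]
    have h10 : (1 : ZMod (n + 2)) ≠ 0 := by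
      have : Fact (1 < n + 2) := ⟨by omega⟩
      exact one_ne_zero
    simp [h10]
  -- the point
  let x : X := fun _ => true
  have h2 : ∃ z : X, ag v 0 (cn (!v 1) z) = cn (v 1) x := by
    by_cases hb : (!v 1) = v 0
    · refine ⟨(ag v (0 - 1))⁻¹ x, ?_⟩
      rw [ag_cn, if_pos hb, app_inv]
      simp
    · refine ⟨x, ?_⟩
      rw [ag_cn, if_neg hb]
      simp
  obtain ⟨z, hz⟩ := h2
  have h3 : (ag v 0 * ag v 1 * (ag v 0)⁻¹) (cn (v 1) x) = cn (v 1) x := by
    rw [Perm.mul_apply, Perm.mul_apply, ← hz, inv_app, hf]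
  rw [h1, ag_cn, if_pos rfl] at h3
  have h4 := (cn_inj h3).2
  rw [sub_self] at h4
  have h5 : ag v 0 x 0 = !x 0 := by
    conv_lhs => rw [← cn_tl x]
    rw [ag_cn]
    simp
  rw [h4] at h5
  simp at h5

/-- The iterated lifts of a commutator. -/
def wm : ℕ → FreeGroup (ZMod (n + 2)) × FreeGroup (ZMod (n + 2))
  | 0 => (FreeGroup.of 0, FreeGroup.of 1)
  | m + 1 => (phi v (wm m).1, phi v (wm m).2)

theorem wm_ne (m : ℕ) : ev v ⁅(wm v m).1, (wm v m).2⁆ ≠ 1 ∧
    ∀ y, ¬ Agr m (fun _ => v 0) y → ev v ⁅(wm v m).1, (wm v m).2⁆ y = y := by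
  induction m with
  | zero => exact ⟨ev_comm_ne v, fun y hy => absurd (Agr_zero _ _) hy⟩
  | succ m ih =>
    obtain ⟨ih1, ih2⟩ := ih
    set w := ⁅(wm v m).1, (wm v m).2⁆ with hw
    have hw' : ⁅(wm v (m + 1)).1, (wm v (m + 1)).2⁆ = phi v w := by
      rw [hw, map_commutatorElement]
      rfl
    have hex : ex (-1) w = 1 := by
      rw [hw, map_commutatorElement, commutatorElement_eq_one_iff_mul_comm]
      exact mul_comm _ _
    have h0 : ∀ z, ev v (phi v w) (cn (v 0) z) = cn (v 0) (ev v w z) := by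
      intro z
      rw [ev_cn, fl_phi, sec_phi, Bool.xor_false]
    have h1 : ∀ z, ev v (phi v w) (cn (!v 0) z) = cn (!v 0) z := by
      intro z
      rw [ev_cn, fl_phi, sec_phi', hex, Bool.xor_false]
      simp
    rw [hw']
    refine ⟨fun h => ih1 ?_, fun y hy => ?_⟩
    · ext1 z
      have h2 := h0 z
      rw [h, Perm.one_apply] at h2
      exact ((cn_inj h2).2).symm
    · rw [← cn_tl y] at hy ⊢
      by_cases hb : y 0 = v 0
      · rw [hb, h0, ih2]
        intro hA
        apply hy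
        have h3 : (fun _ : ℕ => v 0) = cn (v 0) (fun _ : ℕ => v 0) := by
          funext k
          cases k <;> rfl
        rw [h3, Agr_cn, hb]
        exact ⟨rfl, hA⟩
      · have hb' : y 0 = !v 0 := by
          revert hb
          cases y 0 <;> cases v 0 <;> simp
        rw [hb', h1]

theorem t : K_LR := by
  intro n v
  refine ⟨fun g hg m x y => agr_KG v hg m x y, trans_KG v, fun m x => ?_⟩
  obtain ⟨h1, h2⟩ := wm_ne v m
  set g := ev v ⁅(wm v m).1, (wm v m).2⁆ with hg
  obtain ⟨h, hh, hx⟩ := trans_KG v m (fun _ => v 0) x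
  refine ⟨h * g * h⁻¹, (KG v).mul_mem ((KG v).mul_mem hh (ev_mem v _)) ((KG v).inv_mem hh), ?_, ?_⟩
  · intro h3
    apply h1
    have h4 : h * g = h := by
      rw [mul_inv_eq_one] at h3
      exact h3
    exact mul_eq_left.1 h4
  · intro y hy
    have h3 : ¬ Agr m (fun _ => v 0) (h⁻¹ y) := by
      intro hA
      apply hy
      have h4 := (agr_KG v hh m _ _).2 hA
      rw [app_inv] at h4
      exact hx.symm.trans h4
    rw [Perm.mul_apply, Perm.mul_apply, h2 _ h3, app_inv]

end Pool.Agent.Helper83.KN
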