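import Pool.Agent.Helper70.KN.Goals

open MeasureTheory Set

namespace Pool.Agent.Helper83.KN.LP

open Pool.Agent.Helper70.KN

theorem mem_of_lt (h : S_CL) {N : ℕ} (V : Finset (Fin N → ℕ)) (i : Fin N) (x : Fin N → ℝ) (a : ℝ)
    (ha0 : 0 ≤ a) (ha : len V i x < ENNReal.ofReal a) : Function.update x i a ∈ newton V := by
  have hex : ∃ t : ℝ, 0 ≤ t ∧ t ≤ a ∧ Function.update x i t ∈ newton V := by
    by_contra hcon
    push Not at hcon
    have hsub : Icc 0 a ⊆ {t : ℝ | 0 ≤ t ∧ Function.update x i t ∉ newton V} := by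
      intro t ht
      exact ⟨ht.1, hcon t ht.1 ht.2⟩
    have hle := measure_mono (μ := volume) hsub
    rw [Real.volume_Icc, sub_zero] at hle
    unfold len at ha
    exact absurd ha (not_lt.2 hle)
  obtain ⟨t, _, hta, ht⟩ := hex
  refine (h N V).2.2 ?_ ht
  intro j
  by_cases hj : j = i
  · subst hj
    simpa using hta
  · simp [Function.update_of_ne hj]

theorem t (h : S_CL) : S_LP := by
  intro N V i x x' y n hxy hy
  by_contra hcon
  push Not at hcon
  set A := len V i x with hA
  set B := len V i x' with hB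
  have hfin : A + B ≠ ⊤ := ne_top_of_lt hcon
  have hAf : A ≠ ⊤ := fun hh => hfin (by rw [hh, top_add])
  have hBf : B ≠ ⊤ := fun hh => hfin (by rw [hh, add_top])
  have hlt : A.toReal + B.toReal < 2 * n := by
    have h1 : (A + B).toReal < (2 * (n : ENNReal)).toReal := by
      rw [ENNReal.toReal_lt_toReal hfin]
      · exact hcon
      · exact ENNReal.mul_ne_top (by simp) (by simp)
    rw [ENNReal.toReal_add hAf hBf, ENNReal.toReal_mul] at h1
    simpa using h1
  set η := (2 * n - A.toReal - B.toReal) / 4 with hη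
  have hη0 : 0 < η := by
    rw [hη]
    linarith
  have hA0 : 0 ≤ A.toReal := ENNReal.toReal_nonneg
  have hB0 : 0 ≤ B.toReal := ENNReal.toReal_nonneg
  have h1 : Function.update x i (A.toReal + η) ∈ newton V := by
    apply mem_of_lt h V i x _ (by linarith)
    rw [← hA, ENNReal.lt_ofReal_iff_toReal_lt hAf]
    linarith
  have h2 : Function.update x' i (B.toReal + η) ∈ newton V := by
    apply mem_of_lt h V i x' _ (by linarith)
    rw [← hB, ENNReal.lt_ofReal_iff_toReal_lt hBf]
    linarith
  have h3 := (h N V).2.1 h1 h2 (show (0 : ℝ) ≤ 1 / 2 by norm_num) (show (0 : ℝ) ≤ 1 / 2 by norm_num)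
    (by norm_num)
  have h4 : (1 / 2 : ℝ) • Function.update x i (A.toReal + η) + (1 / 2 : ℝ) • Function.update x' i (B.toReal + η) =
      Function.update y i ((A.toReal + B.toReal) / 2 + η) := by
    funext j
    by_cases hj : j = i
    · subst hj
      simp only [Pi.add_apply, Pi.smul_apply, Function.update_self, smul_eq_mul]
      ring
    · simp only [Pi.add_apply, Pi.smul_apply, Function.update_of_ne hj, smul_eq_mul]
      have := hxy j hj
      linarith
  rw [h4] at h3
  refine hy _ (by linarith) ?_ h3
  rw [hη]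
  linarith

end Pool.Agent.Helper83.KN.LP
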