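import Pool.Agent.Helper70.KN.Goals4

/-!
# Project KN, packet SE4: the sum over the disjoint pieces (after Helper15/KN/SE.lean)
-/

set_option autoImplicit false

open MeasureTheory Set

namespace Pool.Agent.Helper83.KN.SE4

open Pool.Agent.Helper70.KN

theorem cyl_empty {N : ℕ} (V : Finset (Fin N → ℕ)) (x : Fin N → ℝ) :
    x ∈ cyl V ∅ ↔ 0 ≤ x ∧ x ∉ newton V := by
  have h : zr ∅ x = x := by
    funext i
    simp [zr]
  simp [cyl, h]

theorem t (hMF : S_MF) (hRW : S_RW) : S_SE4 := by
  classical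
  intro N V L ω α β hF hβ hs i
  obtain ⟨hm, hf, -⟩ := hMF N V hF.1 ∅
  set R : Fin N → Set (Fin N → ℝ) := fun j =>
    {x | x ∈ cyl V ∅ ∧ x j < 1 / 2 ∧ ∀ k, k ≠ i → k ≠ j → x j < x k} with hR
  set B : Set (Fin N → ℝ) := {x | 0 ≤ x ∧ x ∉ newton V ∧ ∀ j, j ≠ i → 1 / 2 ≤ x j} with hB
  have hRs : ∀ j, R j ⊆ cyl V ∅ := fun j x hx => hx.1
  have hBs : B ⊆ cyl V ∅ := fun x hx => (cyl_empty V x).2 ⟨hx.1, hx.2.1⟩
  have hRf : ∀ j, volume (R j) ≠ ⊤ := fun j => ne_top_of_le_ne_top hf (measure_mono (hRs j))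
  have hBf : volume B ≠ ⊤ := ne_top_of_le_ne_top hf (measure_mono hBs)
  have hRm : ∀ j, MeasurableSet (R j) := by
    intro j
    have e : R j = cyl V ∅ ∩ ({x | x j < 1 / 2} ∩
        ⋂ k : Fin N, {x | k ≠ i → k ≠ j → x j < x k}) := by
      ext x
      simp only [hR, mem_setOf_eq, mem_inter_iff, mem_iInter]
    rw [e]
    refine hm.inter ((measurableSet_lt (measurable_pi_apply j) measurable_const).inter
      (MeasurableSet.iInter fun k => ?_))
    by_cases h1 : k = i
    · have : {x : Fin N → ℝ | k ≠ i → k ≠ j → x j < x k} = univ := by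
        ext x
        simp [h1]
      rw [this]
      exact MeasurableSet.univ
    by_cases h2 : k = j
    · have : {x : Fin N → ℝ | k ≠ i → k ≠ j → x j < x k} = univ := by
        ext x
        simp [h2]
      rw [this]
      exact MeasurableSet.univ
    have : {x : Fin N → ℝ | k ≠ i → k ≠ j → x j < x k} = {x | x j < x k} := by
      ext x
      simp [h1, h2]
    rw [this]
    exact measurableSet_lt (measurable_pi_apply j) (measurable_pi_apply k)
  have hd : Set.PairwiseDisjoint (↑(Finset.univ.erase i) : Set (Fin N)) R := by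
    intro j hj k hk hjk
    have hj' : j ≠ i := by simpa using hj
    have hk' : k ≠ i := by simpa using hk
    rw [Function.onFun, Set.disjoint_left]
    intro x hx hx'
    exact lt_asymm (hx.2.2 k hk' hjk.symm) (hx'.2.2 j hj' hjk)
  have hU : volume.real (⋃ j ∈ Finset.univ.erase i, R j) =
      ∑ j ∈ Finset.univ.erase i, volume.real (R j) :=
    measureReal_biUnion_finset hd (fun j _ => hRm j) (fun j _ => hRf j)
  have hUs : (⋃ j ∈ Finset.univ.erase i, R j) ⊆ cyl V ∅ := iUnion₂_subset fun j _ => hRs j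
  have hUf : volume (⋃ j ∈ Finset.univ.erase i, R j) ≠ ⊤ :=
    ne_top_of_le_ne_top hf (measure_mono hUs)
  have hUm : MeasurableSet (⋃ j ∈ Finset.univ.erase i, R j) :=
    Finset.measurableSet_biUnion _ fun j _ => hRm j
  have hdis : Disjoint B (⋃ j ∈ Finset.univ.erase i, R j) := by
    rw [Set.disjoint_left]
    intro x hx hx'
    simp only [mem_iUnion] at hx'
    obtain ⟨j, hj, hx'⟩ := hx'
    exact absurd hx'.2.1 (not_lt.2 (hx.2.2 j (Finset.ne_of_mem_erase hj)))
  have hsum : volume.real B + ∑ j ∈ Finset.univ.erase i, volume.real (R j) ≤ W V ∅ := by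
    rw [← hU, ← measureReal_union hdis hUm hBf hUf]
    exact measureReal_mono (union_subset hBs hUs) hf
  have hle : ∑ j ∈ Finset.univ.erase i, ((α - β * ω) * W V {j} -
      β / ((N : ℝ) - 1) * ∑ k ∈ (Finset.univ.erase i).erase j, W V {j, k}) / N ≤
      ∑ j ∈ Finset.univ.erase i, volume.real (R j) := by
    refine Finset.sum_le_sum fun j hj => ?_
    exact hRW N V L ω α β hF hβ hs i j (Finset.ne_of_mem_erase hj)
  have : volume.real B ≤ W V ∅ - ∑ j ∈ Finset.univ.erase i, ((α - β * ω) * W V {j} -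
      β / ((N : ℝ) - 1) * ∑ k ∈ (Finset.univ.erase i).erase j, W V {j, k}) / N := by
    linarith
  exact this

end Pool.Agent.Helper83.KN.SE4
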